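import Mathlib
import Pool.Agent.W845.DH.Fin

/-!
# Hamiltonicity of randomly perturbed digraphs just below semidegree `n/2`

Let `1/2 ≤ η(n) = o(n)`. Every digraph `D` with minimum semidegree at least `n/2 - η` becomes
Hamiltonian with probability tending to one after adding `D(n,p)` with `p = ω(η/n²)`. If for all
large `n` some integer `k` satisfies `n/2 - η ≤ k < n/2` (for instance if `n/2 - η` is an integer),
there is one sequence of digraphs of minimum semidegree at least `n/2 - η` for which
`p = o(η/n²)` gives probability tending to zero. So `η/n²` is the threshold.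
-/

open Filter Topology

namespace Pool.Agent.Results.MP_ee1662_pr.PerturbedDigraphs

open Pool.Agent.W845.DH

theorem result (η : ℕ → ℝ) (h1 : ∀ᶠ n : ℕ in atTop, 1 / 2 ≤ η n)
    (h2 : Tendsto (fun n : ℕ => η n / n) atTop (𝓝 0)) :
    UpperCond η ∧
    ((∀ᶠ n : ℕ in atTop, ∃ k : ℕ, (n : ℝ) / 2 - η n ≤ k ∧ (k : ℝ) < n / 2) → LowerCond η) :=
  ⟨upper t_ew t_ext t_ne t_rm η h1 h2, fun h3 => lower t_ew t_lowd η h1 h2 h3⟩

end Pool.Agent.Results.MP_ee1662_pr.PerturbedDigraphs
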